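import Pool.Graph.R_seed8.H624U.Defs2

/-!
# Uniquely k-colourable subgraphs at the chromatic number jump: many vertex numbers

Versions of the intermediate statements of `Pool.Agent.H624U` in which one good vertex number `n`
between `N` and `R N` is replaced by a set of at least `κ N` good vertex numbers.
-/

set_option autoImplicit false

namespace Pool.Agent.H47.UQ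

open Finset Pool.Agent.H624C Pool.Agent.H624U
open scoped Classical

noncomputable section

/-- many vertex numbers at which the integrated probability drops -/
def S_drop : Prop := ∀ ε' Λ' : ℝ, 0 < ε' → 0 < Λ' →
  ∃ (R : ℕ) (Λ c γ κ : ℝ) (n0 : ℕ), 0 < R ∧ 0 < Λ ∧ 0 < c ∧ 0 < γ ∧ 0 < κ ∧
  ∀ P : (∀ n : ℕ, Om n → Prop), Fam P → ∀ N ≥ n0, ∀ M ≥ (R * N) ^ 5,
  ∀ t1 : ℕ, t1 = ⌊Λ * M / N⌋₊ →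
  (∀ t : ℕ, (t : ℝ) * N ≤ ε' * M → t ≤ M →
    3 / 4 ≤ E ((t : ℝ) / M) (fun ω : Om N => ind (¬ P N ω))) →
  (∀ t : ℕ, Λ' * M ≤ (t : ℝ) * (R * N : ℕ) → t ≤ M →
    E ((t : ℝ) / M) (fun ω : Om (R * N) => ind (¬ P (R * N) ω)) ≤ γ) →
  ∃ S : Finset ℕ, S ⊆ Ico N (R * N) ∧ κ * N ≤ (S.card : ℝ) ∧ ∀ n ∈ S,
    c * M ≤ (n : ℝ) ^ 2 * ∑ t ∈ range t1, (E ((t : ℝ) / M) (fun ω : Om n => ind (¬ P n ω)) -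
      E ((t : ℝ) / M) (fun ω : Om (n + 1) => ind (¬ P (n + 1) ω)))

/-- many vertex numbers with a positive star-jump mass -/
def S_VJ : Prop := ∀ ε' Λ' : ℝ, 0 < ε' → 0 < Λ' →
  ∃ (R : ℕ) (Λ ε c γ κ : ℝ) (D n0 : ℕ), 0 < R ∧ 0 < ε ∧ ε < Λ ∧ 0 < c ∧ 0 < γ ∧ 0 < κ ∧
  ∀ P : (∀ n : ℕ, Om n → Prop), Fam P → ∀ N ≥ n0, ∀ M ≥ (R * N) ^ 5,
  ∀ t0 t1 : ℕ, t0 = ⌈ε * M / N⌉₊ → t1 = ⌊Λ * M / N⌋₊ →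
  (∀ t : ℕ, (t : ℝ) * N ≤ ε' * M → t ≤ M →
    3 / 4 ≤ E ((t : ℝ) / M) (fun ω : Om N => ind (¬ P N ω))) →
  (∀ t : ℕ, Λ' * M ≤ (t : ℝ) * (R * N : ℕ) → t ≤ M →
    E ((t : ℝ) / M) (fun ω : Om (R * N) => ind (¬ P (R * N) ω)) ≤ γ) →
  ∃ S : Finset ℕ, S ⊆ Ico N (R * N) ∧ κ * N ≤ (S.card : ℝ) ∧ ∀ n ∈ S, ∃ l ≤ D,
    c * M ≤ (n : ℝ) ^ 2 * ∑ t ∈ Ico t0 t1, E ((t : ℝ) / M)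
      (fun ω : Om n => (DJ P l ω : ℝ) / (n : ℝ) ^ (l + 1))

/-- star-jump mass for `PV` without `SL` -/
def S_mass : Prop := ∀ k : ℕ, 3 ≤ k →
  ∃ (R : ℕ) (Λ ε c δ κ : ℝ) (D n0 : ℕ), 0 < R ∧ 0 < ε ∧ ε < Λ ∧ 0 < c ∧ 0 < δ ∧ 0 < κ ∧
  ∀ N ≥ n0, ∀ M ≥ (R * N) ^ 5, ∀ t0 t1 : ℕ, t0 = ⌈ε * M / N⌉₊ → t1 = ⌊Λ * M / N⌋₊ →
  ∃ S : Finset ℕ, S ⊆ Ico N (R * N) ∧ κ * N ≤ (S.card : ℝ) ∧ ∀ n ∈ S,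
    ∃ m0 d m1 l : ℕ, Thr k m0 d m1 ∧ d ≤ n ∧ δ * n ≤ d ∧ 1 ≤ l ∧ l ≤ D ∧
    c * M ≤ (n : ℝ) ^ 2 * ∑ t ∈ Ico t0 t1, E ((t : ℝ) / M)
      (fun ω : Om n => (DG k m0 d m1 l ω : ℝ) / (n : ℝ) ^ (l + 1))

/-- good times -/
def S_good : Prop := ∀ k : ℕ, 3 ≤ k →
  ∃ (R : ℕ) (Λ ε c c' δ κ : ℝ) (D n0 : ℕ), 0 < R ∧ 0 < ε ∧ ε < Λ ∧ 0 < c ∧ 0 < c' ∧ 0 < δ ∧
  0 < κ ∧
  ∀ N ≥ n0, ∀ M ≥ (R * N) ^ 5, ∀ t0 t1 : ℕ, t0 = ⌈ε * M / N⌉₊ → t1 = ⌊Λ * M / N⌋₊ →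
  ∃ S : Finset ℕ, S ⊆ Ico N (R * N) ∧ κ * N ≤ (S.card : ℝ) ∧ ∀ n ∈ S,
    ∃ m0 d m1 l : ℕ, Thr k m0 d m1 ∧ d ≤ n ∧ δ * n ≤ d ∧ 1 ≤ l ∧ l ≤ D ∧
    c' * M ≤ (n : ℝ) ^ 2 * ∑ t ∈ Ico t0 t1, E ((t : ℝ) / M)
      (fun ω : Om n => ind (c * (n : ℝ) ^ (l + 1) ≤ (DG k m0 d m1 l ω : ℝ)))

/-- many good data are visited by the label process -/
def S_vis : Prop := ∀ k : ℕ, 3 ≤ k →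
  ∃ (R : ℕ) (Λ ε c c7 κ : ℝ) (D n0 : ℕ), 0 < R ∧ 0 < ε ∧ ε < Λ ∧ 0 < c ∧ 0 < c7 ∧ 0 < κ ∧
  ∀ N ≥ n0, ∀ M ≥ (R * N) ^ 5, ∀ t0 t1 : ℕ, t0 = ⌈ε * M / N⌉₊ → t1 = ⌊Λ * M / N⌋₊ →
  ∃ S : Finset ℕ, S ⊆ Ico N (R * N) ∧ κ * N ≤ (S.card : ℝ) ∧ ∀ n ∈ S,
    ∃ m0 d m1 l : ℕ, 1 ≤ l ∧ l ≤ D ∧
    c7 * (n : ℝ) ^ (l + Fintype.card (Slt k l)) * (M : ℝ) ^ nI n ≤
      ∑ w : Fin l → Fin n, ∑ y : Slt k l → Fin n, ∑ T : Lab n M,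
        ind (∃ t, t0 ≤ t ∧ t < t1 ∧ Dat k m0 d m1 l c (op t T) w y)

/-- the label process on `n` vertices visits a non-`k`-colourable graph without uniquely
colourable subgraph with probability at least `γ` -/
def Vst (k : ℕ) (γ : ℝ) (n : ℕ) : Prop := ∃ M : ℕ, 0 < M ∧
  γ ≤ (∑ T : Lab n M, ind (∃ t : ℕ, ¬ KAliveU k (op t T) ∧ ¬ HasU k (op t T))) /
    (M : ℝ) ^ nI n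

/-- the conclusion for the label process -/
def S_fin : Prop := ∀ k : ℕ, 3 ≤ k →
  ∃ (R : ℕ) (γ κ : ℝ) (n0 : ℕ), 0 < R ∧ 0 < γ ∧ 0 < κ ∧ ∀ N ≥ n0,
    ∃ S : Finset ℕ, S ⊆ Ico N (R * N) ∧ κ * N ≤ (S.card : ℝ) ∧ ∀ n ∈ S, Vst k γ n

end

end Pool.Agent.H47.UQ
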