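import Pool.Graph.R_seed8.H624U.SJ
import Pool.Agent.H47.UQ.Defs

/-!
# Many drops of the integrated probability
-/

set_option autoImplicit false

namespace Pool.Agent.H47.UQ

open Finset Pool.Agent.H624C Pool.Agent.H624U Pool.Agent.H624U.SJ
open scoped Classical

/-- the upper bound for a single drop -/
theorem drop_upper (hh : T_hyb) (hdeg : T_deg) (hdiff : T_diff) (hm : T_mpu1)
    {P : ∀ n : ℕ, Om n → Prop} (hP : Fam P) {R : ℕ} {Λ : ℝ} {N M t1 n : ℕ}
    (hR : 0 < R) (hΛ : 0 < Λ)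
    (hN1 : 1 ≤ N) (hNΛ : 2 * Λ ≤ N)
    (hM : (R * N) ^ 5 ≤ M) (ht1 : (t1 : ℝ) ≤ Λ * M / N)
    (hn1 : N ≤ n) (hn2 : n < R * N) :
    (n : ℝ) ^ 2 * ∑ t ∈ range t1, (E ((t : ℝ) / M) (fun ω : Om n =>
      ind (¬ P n ω)) - E ((t : ℝ) / M) (fun ω : Om (n + 1) => ind (¬ P (n + 1) ω))) ≤
      4 * Real.exp (2 * (R * Λ)) * (R * Λ) * M := by
  set K : ℝ := R * Λ with hK
  set C0 : ℝ := Real.exp (2 * K) with hC0
  have hRr : (1 : ℝ) ≤ R := by exact_mod_cast hR
  have hNr : (1 : ℝ) ≤ N := by exact_mod_cast hN1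
  have hN0 : (0 : ℝ) < N := by linarith
  have hnr : (1 : ℝ) ≤ n := by exact_mod_cast (hN1.trans hn1)
  have hn0 : (0 : ℝ) < n := by linarith
  have hnRN : (n : ℝ) ≤ R * N := by exact_mod_cast hn2.le
  have hK0 : 0 < K := by rw [hK]; positivity
  have hC1 : 1 ≤ C0 := by rw [hC0]; exact Real.one_le_exp (by positivity)
  have hC0' : 0 < C0 := by linarith
  have hn5 : (n + 1) ^ 5 ≤ M := (Nat.pow_le_pow_left (by omega) 5).trans hM
  have hM1 : 1 ≤ M := le_trans (Nat.one_le_pow _ _ (Nat.succ_pos n)) hn5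
  have hMr : (1 : ℝ) ≤ M := by exact_mod_cast hM1
  have hM0 : (0 : ℝ) < M := by linarith
  have ht1M : (t1 : ℝ) ≤ M := by
    refine ht1.trans ?_
    rw [div_le_iff₀ hN0]
    nlinarith
  have ht1M' : t1 ≤ M := by exact_mod_cast ht1M
  -- bounds for the times
  have hp0 : ∀ t : ℕ, (0 : ℝ) ≤ (t : ℝ) / M := fun t => by positivity
  have hpN : ∀ t : ℕ, t ≤ t1 → (t : ℝ) / M ≤ Λ / N := by
    intro t ht
    have h1 : (t : ℝ) ≤ t1 := by exact_mod_cast ht
    rw [div_le_div_iff₀ hM0 hN0]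
    have h2 := h1.trans ht1
    rw [le_div_iff₀ hN0] at h2
    exact h2
  have hpn : ∀ t : ℕ, t ≤ t1 → (t : ℝ) / M * n ≤ K := by
    intro t ht
    have h1 := hpN t ht
    calc (t : ℝ) / M * n ≤ Λ / N * n := mul_le_mul_of_nonneg_right h1 hn0.le
      _ ≤ Λ / N * (R * N) := mul_le_mul_of_nonneg_left hnRN (by positivity)
      _ = K := by
          rw [hK]
          field_simp
  have hp2 : ∀ t : ℕ, t ≤ t1 → (t : ℝ) / M ≤ 1 / 2 := by
    intro t ht
    refine (hpN t ht).trans ?_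
    rw [div_le_iff₀ hN0]
    linarith
  have hp1 : ∀ t : ℕ, t ≤ t1 → (t : ℝ) / M ≤ 1 := fun t ht => (hp2 t ht).trans (by norm_num)
  have hinv : ∀ t : ℕ, t ≤ t1 → ((1 - (t : ℝ) / M) ^ n)⁻¹ ≤ C0 := by
    intro t ht
    refine (inv_bound (hp0 t) (hp2 t ht) n).trans ?_
    rw [hC0, Real.exp_le_exp]
    linarith [hpn t ht]
  -- abbreviations
  set B : ℕ → ℝ := fun t => E ((t : ℝ) / M) (fun ω : Om n => Bp P ((t : ℝ) / M) ω) with hB
  set Dt : ℕ → ℝ := fun t => E ((t : ℝ) / M) (fun ω : Om n => Dp P ((t : ℝ) / M) ω) with hDt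
  have hDt0 : ∀ t, t ≤ t1 → 0 ≤ Dt t := fun t ht =>
    E_nonneg (hp0 t) (hp1 t ht) fun ω => Dp_nonneg P (hp0 t) (hp1 t ht) ω
  have hDs : ∀ s, s ≤ t1 → ∑ t ∈ range s, Dt t ≤ 4 * M / ((n : ℝ) + 1) := fun s hs =>
    DS hdeg hm hP hn5 (hs.trans ht1M')
  have hyp' : (n : ℝ) ^ 2 * ∑ t ∈ range t1, (E ((t : ℝ) / M) (fun ω : Om n =>
      ind (¬ P n ω)) - E ((t : ℝ) / M) (fun ω : Om (n + 1) => ind (¬ P (n + 1) ω))) =
      (n : ℝ) ^ 2 * ∑ t ∈ range t1, B t := by
    congr 1
    refine Finset.sum_congr rfl fun t ht => ?_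
    have htt := (Finset.mem_range.1 ht).le
    exact hdiff P hP n _ (hp0 t) (hp1 t htt)
  rw [hyp']
  -- (a)
  have hBD : ∀ t, t ≤ t1 → B t ≤ (t : ℝ) / M * C0 * Dt t := by
    intro t ht
    have h1 : B t ≤ (t : ℝ) / M * ((1 - (t : ℝ) / M) ^ n)⁻¹ * Dt t := by
      rw [hB, hDt]
      simp only
      rw [← E_mul_left]
      exact E_mono (hp0 t) (hp1 t ht) fun ω =>
        a_pt hh hP (hp0 t) (lt_of_le_of_lt (hp2 t ht) (by norm_num)) ω
    refine h1.trans ?_
    apply mul_le_mul_of_nonneg_right _ (hDt0 t ht)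
    exact mul_le_mul_of_nonneg_left (hinv t ht) (hp0 t)
  have hA : ∀ s, s ≤ t1 → (n : ℝ) ^ 2 * ∑ t ∈ range s, B t ≤ 4 * C0 * n * s := by
    intro s hs
    have h1 : ∑ t ∈ range s, B t ≤ (s : ℝ) / M * C0 * (4 * M / ((n : ℝ) + 1)) := by
      calc ∑ t ∈ range s, B t ≤ ∑ t ∈ range s, (s : ℝ) / M * C0 * Dt t := by
            refine Finset.sum_le_sum fun t ht => ?_
            have htt := (Finset.mem_range.1 ht).le
            refine (hBD t (htt.trans hs)).trans ?_
            apply mul_le_mul_of_nonneg_right _ (hDt0 t (htt.trans hs))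
            apply mul_le_mul_of_nonneg_right _ hC0'.le
            apply div_le_div_of_nonneg_right _ hM0.le
            exact_mod_cast htt
        _ = (s : ℝ) / M * C0 * ∑ t ∈ range s, Dt t := by rw [Finset.mul_sum]
        _ ≤ _ := mul_le_mul_of_nonneg_left (hDs s hs) (by positivity)
    calc (n : ℝ) ^ 2 * ∑ t ∈ range s, B t ≤
        (n : ℝ) ^ 2 * ((s : ℝ) / M * C0 * (4 * M / ((n : ℝ) + 1))) :=
          mul_le_mul_of_nonneg_left h1 (by positivity)
      _ = (4 * C0 * n * s) * (n / ((n : ℝ) + 1)) := by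
          field_simp
      _ ≤ (4 * C0 * n * s) * 1 := by
          apply mul_le_mul_of_nonneg_left _ (by positivity)
          rw [div_le_one (by positivity)]
          linarith
      _ = _ := mul_one _
  have hnt1 : (n : ℝ) * t1 ≤ K * M := by
    have h1 := hpn t1 le_rfl
    rw [div_mul_eq_mul_div, div_le_iff₀ hM0] at h1
    linarith
  refine (hA t1 le_rfl).trans ?_
  nlinarith [mul_le_mul_of_nonneg_left hnt1 (show (0 : ℝ) ≤ 4 * C0 by positivity)]

/-- many drops -/
theorem DR'_thm (hh : T_hyb) (hdeg : T_deg) (hdiff : T_diff) (hm : T_mpu1) : S_drop := by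
  intro ε' Λ' hε' hΛ'
  obtain ⟨R, hR2, hRL⟩ : ∃ R : ℕ, 2 ≤ R ∧ 8 * Λ' / ε' ≤ R :=
    ⟨max 2 ⌈8 * Λ' / ε'⌉₊, le_max_left _ _, by
      push_cast
      exact le_trans (Nat.le_ceil _) (le_max_right _ _)⟩
  have hR0 : 0 < R := by omega
  have hR' : (0 : ℝ) < R := by exact_mod_cast hR0
  set Λ : ℝ := 2 * ε' + 1 with hΛ
  have hΛ0 : 0 < Λ := by positivity
  set γ : ℝ := ε' / (8 * Λ) with hγ
  set C : ℝ := 4 * Real.exp (2 * (R * Λ)) * (R * Λ) with hC
  have hC0 : 0 < C := by positivity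
  refine ⟨R, Λ, ε' / (8 * R), γ, ε' / (8 * C), max 1 (max ⌈2 * Λ⌉₊ ⌈4 / ε'⌉₊), hR0, hΛ0,
    by positivity, by positivity, by positivity, ?_⟩
  intro P hP N hN M hM t1 ht1 hlow hhigh
  have hN1 : 1 ≤ N := le_trans (le_max_left _ _) hN
  have hN1' : (1 : ℝ) ≤ N := by exact_mod_cast hN1
  have hN0 : (0 : ℝ) < N := by linarith
  have hN2Λ : 2 * Λ ≤ N := by
    have h1 : ⌈2 * Λ⌉₊ ≤ N := le_trans ((le_max_left _ _).trans (le_max_right _ _)) hN
    exact le_trans (Nat.le_ceil _) (by exact_mod_cast h1)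
  have hNΛ : Λ ≤ N := by linarith
  have hNε : 4 / ε' ≤ N := by
    have h1 : ⌈4 / ε'⌉₊ ≤ N := le_trans ((le_max_right _ _).trans (le_max_right _ _)) hN
    exact le_trans (Nat.le_ceil _) (by exact_mod_cast h1)
  have hNM : N * N ≤ M := by
    refine le_trans ?_ hM
    have h1 : N ≤ R * N := Nat.le_mul_of_pos_left _ hR0
    have h2 : 1 ≤ R * N := le_trans hN1 h1
    calc N * N ≤ (R * N) * (R * N) := Nat.mul_le_mul h1 h1
      _ = (R * N) ^ 2 := by ring
      _ ≤ (R * N) ^ 5 := Nat.pow_le_pow_right h2 (by norm_num)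
  have hNM' : (N : ℝ) * N ≤ M := by exact_mod_cast hNM
  have hM0 : (0 : ℝ) < M := by nlinarith
  set x : ℝ := M / N with hx
  have hx0 : 0 < x := by positivity
  have hxN : (N : ℝ) ≤ x := by rw [hx, le_div_iff₀ hN0]; exact hNM'
  have hx1 : 1 ≤ x := by linarith
  have hxM : x * N = M := by rw [hx]; field_simp
  have hxle : x ≤ M := by rw [hx]; exact div_le_self hM0.le hN1'
  have ht1' : (t1 : ℝ) ≤ Λ * x := by
    rw [ht1, hx, ← mul_div_assoc]
    exact Nat.floor_le (by positivity)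
  have ht1'' : (t1 : ℝ) ≤ Λ * M / N := by
    rw [ht1]
    exact Nat.floor_le (by positivity)
  have ht1M : t1 ≤ M := by
    have : (t1 : ℝ) ≤ M := by
      calc (t1 : ℝ) ≤ Λ * x := ht1'
        _ ≤ N * x := mul_le_mul_of_nonneg_right hNΛ hx0.le
        _ = M := by rw [mul_comm, hxM]
    exact_mod_cast this
  have hp : ∀ t ∈ range t1, 0 ≤ (t : ℝ) / M ∧ (t : ℝ) / M ≤ 1 := by
    intro t ht
    refine ⟨by positivity, ?_⟩
    rw [div_le_one hM0]
    have : t ≤ M := by
      have := mem_range.1 ht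
      omega
    exact_mod_cast this
  set T : ℕ → ℝ := fun n => ∑ t ∈ range t1, E ((t : ℝ) / M) (fun ω : Om n => ind (¬ P n ω))
    with hT
  -- lower bound for `T N`
  have hlo : 3 / 4 * (ε' * x) ≤ T N := by
    set s := ⌊ε' * x⌋₊ + 1 with hs
    have hs1 : s ≤ t1 := by
      rw [ht1, Nat.le_floor_iff (by positivity), hs]
      push_cast
      have h1 : (⌊ε' * x⌋₊ : ℝ) ≤ ε' * x := Nat.floor_le (by positivity)
      have h2 : Λ * M / N = Λ * x := by rw [hx, mul_div_assoc]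
      rw [h2, hΛ]
      nlinarith
    have h2 : ∑ _t ∈ range s, (3 / 4 : ℝ) ≤
        ∑ t ∈ range s, E ((t : ℝ) / M) (fun ω : Om N => ind (¬ P N ω)) := by
      refine sum_le_sum fun t ht => hlow t ?_ ?_
      · have h3 : t ≤ ⌊ε' * x⌋₊ := by
          have := mem_range.1 ht
          omega
        have h4 : (t : ℝ) ≤ ε' * x := le_trans (by exact_mod_cast h3) (Nat.floor_le (by positivity))
        calc (t : ℝ) * N ≤ ε' * x * N := mul_le_mul_of_nonneg_right h4 hN0.le
          _ = ε' * M := by rw [mul_assoc, hxM]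
      · have := mem_range.1 ht
        omega
    have h3 : ∑ t ∈ range s, E ((t : ℝ) / M) (fun ω : Om N => ind (¬ P N ω)) ≤ T N := by
      refine sum_le_sum_of_subset_of_nonneg (range_mono hs1) fun t ht _ => ?_
      exact E_nonneg (hp t ht).1 (hp t ht).2 fun _ => ind_nonneg _
    rw [sum_const, card_range, nsmul_eq_mul] at h2
    have h4 : ε' * x ≤ s := by
      rw [hs]
      push_cast
      exact (Nat.lt_floor_add_one _).le
    linarith
  -- upper bound for `T (R * N)`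
  have hup : T (R * N) ≤ ε' / 4 * x + 1 := by
    have h1 : ∀ t ∈ range t1, E ((t : ℝ) / M) (fun ω : Om (R * N) => ind (¬ P (R * N) ω)) ≤
        ind ((t : ℝ) * (R * N : ℕ) < Λ' * M) + γ := by
      intro t ht
      by_cases h : (t : ℝ) * (R * N : ℕ) < Λ' * M
      · rw [ind_true h]
        have := E_ind_le_one (hp t ht).1 (hp t ht).2 (fun ω : Om (R * N) => ¬ P (R * N) ω)
        have hγ0 : 0 < γ := by positivity
        linarith
      · rw [ind_false h, zero_add]
        exact hhigh t (not_lt.1 h) (by have := mem_range.1 ht; omega)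
    have h2 : T (R * N) ≤ ∑ t ∈ range t1, (ind ((t : ℝ) * (R * N : ℕ) < Λ' * M) + γ) :=
      sum_le_sum h1
    rw [sum_add_distrib, sum_const, card_range, nsmul_eq_mul] at h2
    have h3 : ∑ t ∈ range t1, ind ((t : ℝ) * (R * N : ℕ) < Λ' * M) ≤ ε' / 8 * x + 1 := by
      rw [← card_filter_eq_sum_ind (range t1) (fun t : ℕ => (t : ℝ) * (R * N : ℕ) < Λ' * M)]
      have h4 : (range t1).filter (fun t : ℕ => (t : ℝ) * (R * N : ℕ) < Λ' * M) ⊆
          range ⌈ε' / 8 * x⌉₊ := by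
        intro t ht
        rw [mem_filter] at ht
        rw [mem_range, Nat.lt_ceil]
        have h5 := ht.2
        push_cast at h5
        have h6 : 8 * Λ' ≤ R * ε' := by
          rw [div_le_iff₀ hε'] at hRL
          linarith
        rw [← hxM] at h5
        have h7 : (t : ℝ) * R < Λ' * x := by
          have : ((t : ℝ) * R) * N < (Λ' * x) * N := by nlinarith
          exact lt_of_mul_lt_mul_right this hN0.le
        have h8 : (t : ℝ) * R < (ε' / 8 * x) * R := by nlinarith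
        exact lt_of_mul_lt_mul_right h8 hR'.le
      have h5 := card_le_card h4
      rw [card_range] at h5
      have h6 : (⌈ε' / 8 * x⌉₊ : ℝ) ≤ ε' / 8 * x + 1 := (Nat.ceil_lt_add_one (by positivity)).le
      exact le_trans (by exact_mod_cast h5) h6
    have h4 : (t1 : ℝ) * γ ≤ ε' / 8 * x := by
      calc (t1 : ℝ) * γ ≤ (Λ * x) * γ := mul_le_mul_of_nonneg_right ht1' (by positivity)
        _ = ε' / 8 * x := by rw [hγ]; field_simp
    linarith
  -- telescoping
  have hdiff' : ε' / 4 * x ≤ T N - T (R * N) := by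
    have h1 : 4 ≤ ε' * x := by
      have : 4 ≤ ε' * N := by
        rw [div_le_iff₀ hε'] at hNε
        linarith
      nlinarith
    linarith
  have hNRN : N ≤ R * N := Nat.le_mul_of_pos_left _ hR0
  have htel : ∑ n ∈ Ico N (R * N), (T n - T (n + 1)) = T N - T (R * N) := by
    have h1 := Finset.sum_Ico_sub (fun i => T i) hNRN
    have h2 : ∑ n ∈ Ico N (R * N), (T n - T (n + 1)) =
        - ∑ n ∈ Ico N (R * N), (T (n + 1) - T n) := by
      rw [← Finset.sum_neg_distrib]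
      exact Finset.sum_congr rfl fun i _ => by ring
    rw [h2, h1]
    ring
  have hdrop : ∀ n, T n - T (n + 1) = ∑ t ∈ range t1, (E ((t : ℝ) / M) (fun ω : Om n =>
      ind (¬ P n ω)) - E ((t : ℝ) / M) (fun ω : Om (n + 1) => ind (¬ P (n + 1) ω))) := by
    intro n
    rw [Finset.sum_sub_distrib]
  have hub : ∀ n ∈ Ico N (R * N), T n - T (n + 1) ≤ C * x / N := by
    intro n hn
    obtain ⟨hn1, hn2⟩ := Finset.mem_Ico.1 hn
    have h1 := drop_upper hh hdeg hdiff hm hP hR0 hΛ0 hN1 hN2Λ hM ht1'' hn1 hn2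
    rw [← hdrop n] at h1
    have hnr : (N : ℝ) ≤ n := by exact_mod_cast hn1
    rcases le_or_gt (T n - T (n + 1)) 0 with h2 | h2
    · exact h2.trans (by positivity)
    · rw [le_div_iff₀ hN0]
      have h3 : (N : ℝ) ^ 2 * (T n - T (n + 1)) ≤ C * M := by
        refine le_trans ?_ h1
        apply mul_le_mul_of_nonneg_right _ h2.le
        exact pow_le_pow_left₀ hN0.le hnr 2
      rw [← hxM] at h3
      have h4 : ((T n - T (n + 1)) * N) * N ≤ (C * x) * N := by nlinarith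
      exact le_of_mul_le_mul_right h4 hN0
  set S : Finset ℕ := (Ico N (R * N)).filter
    (fun n => ε' / 8 * x / (R * N) ≤ T n - T (n + 1)) with hS
  refine ⟨S, Finset.filter_subset _ _, ?_, ?_⟩
  · have h1 : ∑ n ∈ Ico N (R * N), (T n - T (n + 1)) ≤
        ∑ n ∈ Ico N (R * N), (ind (ε' / 8 * x / (R * N) ≤ T n - T (n + 1)) * (C * x / N) +
          ε' / 8 * x / (R * N)) := by
      refine Finset.sum_le_sum fun n hn => ?_
      by_cases h : ε' / 8 * x / (R * N) ≤ T n - T (n + 1)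
      · rw [ind_true h, one_mul]
        have := hub n hn
        have h5 : 0 ≤ ε' / 8 * x / (R * N) := by positivity
        linarith
      · rw [ind_false h, zero_mul, zero_add]
        exact (not_le.1 h).le
    rw [htel, Finset.sum_add_distrib, ← Finset.sum_mul, ← card_filter_eq_sum_ind,
      Finset.sum_const, Nat.card_Ico, nsmul_eq_mul] at h1
    have h2 : ((R * N - N : ℕ) : ℝ) * (ε' / 8 * x / (R * N)) ≤ ε' / 8 * x := by
      have h3 : ((R * N - N : ℕ) : ℝ) ≤ R * N := by exact_mod_cast Nat.sub_le _ _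
      calc ((R * N - N : ℕ) : ℝ) * (ε' / 8 * x / (R * N))
          ≤ (R * N) * (ε' / 8 * x / (R * N)) :=
            mul_le_mul_of_nonneg_right h3 (by positivity)
        _ = ε' / 8 * x := by field_simp
    have h3 : ε' / 8 * x ≤ (S.card : ℝ) * (C * x / N) := by
      have h4 := hdiff'.trans h1
      rw [hS]
      linarith
    have h4 : ε' / 8 * N ≤ (S.card : ℝ) * C := by
      have h5 : (ε' / 8 * N) * (x / N) ≤ ((S.card : ℝ) * C) * (x / N) := by
        calc (ε' / 8 * N) * (x / N) = ε' / 8 * x := by field_simp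
          _ ≤ (S.card : ℝ) * (C * x / N) := h3
          _ = _ := by ring
      exact le_of_mul_le_mul_right h5 (by positivity)
    calc ε' / (8 * C) * N = (ε' / 8 * N) / C := by field_simp
      _ ≤ (S.card : ℝ) := by
          rw [div_le_iff₀ hC0]
          exact h4
  · intro n hn
    rw [hS, Finset.mem_filter, Finset.mem_Ico] at hn
    obtain ⟨⟨hn1, hn2⟩, hle⟩ := hn
    rw [← hdrop n]
    have h2 : (N : ℝ) ^ 2 ≤ (n : ℝ) ^ 2 := by
      apply pow_le_pow_left₀ hN0.le
      exact_mod_cast hn1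
    calc ε' / (8 * R) * M = (N : ℝ) ^ 2 * (ε' / 8 * x / (R * N)) := by
          rw [← hxM]; field_simp
      _ ≤ (N : ℝ) ^ 2 * (T n - T (n + 1)) :=
          mul_le_mul_of_nonneg_left hle (by positivity)
      _ ≤ _ := mul_le_mul_of_nonneg_right h2 (le_trans (by positivity) hle)

end Pool.Agent.H47.UQ
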