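import Pool.Graph.R_seed8.H624U.FN
import Pool.Agent.H47.UQ.Defs

/-!
# Second moment argument

After `Pool.Graph.R_seed8.H624U.FN`, with a set of good vertex numbers.
-/

set_option autoImplicit false

namespace Pool.Agent.H47.UQ

open Finset Pool.Agent.H624C Pool.Agent.H624U
open scoped Classical

open Pool.Agent.H624U.FN in
theorem FN'_thm (h1 : S_vis) (h2 : T_prb) (h3 : T_det) (h4 : T_tri) : S_fin := by
  intro k hk
  obtain ⟨R, Λ, ε, c, c7, κ, D, n1, hR, hε, hεΛ, hc, hc7, hκ, hvis⟩ := h1 k hk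
  have hΛ : 0 < Λ := hε.trans hεΛ
  have hR' : (1 : ℝ) ≤ R := by exact_mod_cast hR
  choose c8 n0 hc8 hprb using fun l => h2 k l ε (R * Λ) c7 hk hε (by positivity) hc7
  choose C hC htri using fun l =>
    h4 ((R + 1) * Λ) (2 * Fintype.card (Gad k l)) (by positivity)
  obtain ⟨γ, hγ, hγ'⟩ := exists_min (fun l => (c8 l / 2 ^ Fintype.card (Rts k l)) ^ 2 / C l)
    (fun l => by have := hc8 l; have := hC l; positivity) D
  obtain ⟨N1, hN1⟩ := exists_max n0 D
  obtain ⟨N2, hN2⟩ := exists_max (fun l => 2 * Fintype.card (Rts k l)) D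
  refine ⟨R + 1, γ, κ / (D + 1), n1 + N1 + N2 + ⌈Λ⌉₊ + ⌈(Λ - ε)⁻¹⌉₊ + 1, Nat.succ_pos R, hγ,
    by positivity, fun N hN => ?_⟩
  have hNpos : 0 < N := by omega
  set M := (R * N) ^ 5 with hM
  have hMpos : 0 < M := by positivity
  obtain ⟨Sn, hSn1, hSn2, hSn3⟩ := hvis N (by omega) M le_rfl
    ⌈ε * M / N⌉₊ ⌊Λ * M / N⌋₊ rfl rfl
  set t0 := ⌈ε * M / N⌉₊ with ht0
  set t1 := ⌊Λ * M / N⌋₊ with ht1
  have hNR : (0 : ℝ) < N := by exact_mod_cast hNpos
  have hMR : (0 : ℝ) < M := by exact_mod_cast hMpos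
  have hN3 : Λ ≤ N := by
    have h5 : (⌈Λ⌉₊ : ℝ) ≤ N := by exact_mod_cast (by omega : ⌈Λ⌉₊ ≤ N)
    exact (Nat.le_ceil _).trans h5
  have hN4 : (Λ - ε)⁻¹ ≤ N := by
    have h5 : (⌈(Λ - ε)⁻¹⌉₊ : ℝ) ≤ N := by exact_mod_cast (by omega : ⌈(Λ - ε)⁻¹⌉₊ ≤ N)
    exact (Nat.le_ceil _).trans h5
  have hMN : (N : ℝ) ≤ M / N := by
    rw [le_div_iff₀ hNR]
    have h5 : N * N ≤ M := by
      calc N * N = N ^ 2 := by ring
        _ ≤ N ^ 5 := Nat.pow_le_pow_right hNpos (by norm_num)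
        _ ≤ (R * N) ^ 5 := Nat.pow_le_pow_left (Nat.le_mul_of_pos_left N hR) 5
    exact_mod_cast h5
  have hx0 : (0 : ℝ) ≤ Λ * M / N := by positivity
  have ht1N : (t1 : ℝ) * N ≤ Λ * M := by
    have := Nat.floor_le hx0
    rw [le_div_iff₀ hNR] at this
    exact this
  have ht0N : ε * M ≤ (t0 : ℝ) * N := by
    have := Nat.le_ceil (ε * M / N)
    rw [div_le_iff₀ hNR] at this
    exact this
  have ht01 : t0 ≤ t1 := by
    refine Nat.le_floor ?_
    have h5 := Nat.ceil_lt_add_one (a := ε * M / N) (by positivity)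
    have h6 : 1 ≤ (Λ - ε) * (M / N) := by
      have h7 : 0 < Λ - ε := by linarith
      have h8 := hN4.trans hMN
      rw [inv_le_iff_one_le_mul₀ h7] at h8
      linarith
    have h9 : ε * M / N + 1 ≤ Λ * M / N := by
      rw [mul_div_assoc, mul_div_assoc]
      linarith
    linarith
  have ht1M : t1 ≤ M := by
    have h5 : (t1 : ℝ) * N ≤ M * N := ht1N.trans (by nlinarith)
    exact_mod_cast le_of_mul_le_mul_right h5 hNR
  -- one vertex number
  have hkey : ∀ n ∈ Sn, ∃ l ≤ D, Fintype.card (Rts k l) ≤ N ∧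
      Vst k γ (n + Fintype.card (Rts k l)) := by
    intro n hn
    obtain ⟨hn1, hn2⟩ := Finset.mem_Ico.1 (hSn1 hn)
    obtain ⟨m0, d, m1, l, hl1, hlD, hbig⟩ := hSn3 n hn
    have hnN : (N : ℝ) ≤ n := by exact_mod_cast hn1
    have hnRN : (n : ℝ) ≤ R * N := by exact_mod_cast hn2.le
    have ht1n : (t1 : ℝ) * n ≤ R * Λ * M := by
      calc (t1 : ℝ) * n ≤ t1 * (R * N) := by gcongr
        _ = R * (t1 * N) := by ring
        _ ≤ R * (Λ * M) := by gcongr
        _ = R * Λ * M := by ring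
    have hN2l : 2 * Fintype.card (Rts k l) ≤ N2 := hN2 l hlD
    have hN1l : n0 l ≤ N1 := hN1 l hlD
    refine ⟨l, hlD, by omega, M, hMpos, (hγ' l hlD).trans ?_⟩
    refine core (m0 := m0) (d := d) (m1 := m1) (c := c) (t0 := t0) (t1 := t1) (n := n) hk h3 rfl
      (by omega) hMpos ht1M (hc8 l) (hC l) ?_ ?_
    · intro ι ρ hs
      exact hprb l n (by omega) _ rfl M t0 t1 hMpos ht01 (ht0N.trans (by gcongr)) ht1n
        (fun w y T => ∃ t, t0 ≤ t ∧ t < t1 ∧ Dat k m0 d m1 l c (op t T) w y) hbig ι ρ hs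
    · refine htri l _ _ (by positivity) ?_ ?_
      · rw [div_le_one hMR]
        exact_mod_cast ht1M
      · rw [div_mul_eq_mul_div, div_le_iff₀ hMR]
        push_cast
        have h5 : (Fintype.card (Rts k l) : ℝ) ≤ N := by
          exact_mod_cast (by omega : Fintype.card (Rts k l) ≤ N)
        calc (t1 : ℝ) * (n + Fintype.card (Rts k l)) =
            t1 * n + t1 * Fintype.card (Rts k l) := by ring
          _ ≤ R * Λ * M + t1 * N := by gcongr
          _ ≤ R * Λ * M + Λ * M := by gcongr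
          _ = (R + 1) * Λ * M := by ring
  choose! l hlD hlN hlV using hkey
  set S' : Finset ℕ := (Ico N ((R + 1) * N)).filter (Vst k γ) with hS'
  refine ⟨S', Finset.filter_subset _ _, ?_, fun n hn => (Finset.mem_filter.1 hn).2⟩
  have hcard : Sn.card ≤ (S' ×ˢ range (D + 1)).card := by
    refine Finset.card_le_card_of_injOn (fun n => (n + Fintype.card (Rts k (l n)), l n)) ?_ ?_
    · intro n hn
      have hn' : n ∈ Sn := hn
      obtain ⟨hn1, hn2⟩ := Finset.mem_Ico.1 (hSn1 hn')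
      have h5 := hlN n hn'
      have h6 : n + Fintype.card (Rts k (l n)) < (R + 1) * N := by
        rw [add_mul, one_mul]
        omega
      rw [Finset.mem_coe, Finset.mem_product, hS', Finset.mem_filter, Finset.mem_Ico,
        Finset.mem_range]
      exact ⟨⟨⟨hn1.trans (Nat.le_add_right _ _), h6⟩, hlV n hn'⟩, Nat.lt_succ_of_le (hlD n hn')⟩
    · intro n _ n' _ h
      simp only [Prod.mk.injEq] at h
      obtain ⟨h5, h6⟩ := h
      rw [h6] at h5
      omega
  rw [Finset.card_product, Finset.card_range] at hcard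
  have hcard' : (Sn.card : ℝ) ≤ (S'.card : ℝ) * (D + 1) := by exact_mod_cast hcard
  rw [div_mul_eq_mul_div, div_le_iff₀ (by positivity)]
  exact hSn2.trans hcard'

end Pool.Agent.H47.UQ
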