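import Pool.Graph.R_seed8.H624U.GD
import Pool.Agent.H47.UQ.Defs

/-!
# Good times

After `Pool.Graph.R_seed8.H624U.GD`, with a set of good vertex numbers.
-/

set_option autoImplicit false

namespace Pool.Agent.H47.UQ

open Finset Pool.Agent.H624C Pool.Agent.H624U
open scoped Classical

open Pool.Agent.H624U.GD in
theorem GD'_thm (h1 : S_mass) (h2 : T_jump) (h3 : T_mrg) (h4 : T_ks) : S_good := by
  intro k hk
  obtain ⟨R, Λ, ε, c, δ, κ, D, n0, hR, hε, hεΛ, hc, hδ, hκ, H⟩ := h1 k hk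
  have hΛ : 0 < Λ := lt_trans hε hεΛ
  have hRr : (0 : ℝ) < R := by exact_mod_cast hR
  have hΛ' : 0 < R * Λ := by positivity
  obtain ⟨C, hC0, hC⟩ := h3 k k D (R * Λ) hk hΛ'
  set δ1 : ℝ := δ ^ k with hδ1
  have hδ1p : 0 < δ1 := by positivity
  set y : ℝ := min 1 (c * δ1 / (2 * (C + 1))) with hy
  have hy0 : 0 < y := lt_min one_pos (by positivity)
  have hy1 : y ≤ 1 := min_le_left _ _
  have hyC : y * (C / δ1) ≤ c / 2 := by
    have h5 : y * C ≤ c * δ1 / 2 := by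
      calc y * C ≤ (c * δ1 / (2 * (C + 1))) * (C + 1) :=
            mul_le_mul (min_le_right _ _) (by linarith) hC0 (by positivity)
        _ = c * δ1 / 2 := by field_simp
    rw [← mul_div_assoc, div_le_iff₀ hδ1p]
    linarith
  refine ⟨R, Λ, ε, y ^ (D + 1), c / 2, δ, κ, D, max n0 (max 2 (⌈2 * (R * Λ)⌉₊)), hR, hε, hεΛ,
    by positivity, by positivity, hδ, hκ, ?_⟩
  intro N hN M hM t0 t1 ht0 ht1
  have hN0 : n0 ≤ N := le_trans (le_max_left _ _) hN
  have hN2 : 2 ≤ N := le_trans (le_trans (le_max_left _ _) (le_max_right _ _)) hN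
  have hNΛ : 2 * (R * Λ) ≤ (N : ℝ) := by
    have : ⌈2 * (R * Λ)⌉₊ ≤ N := le_trans (le_trans (le_max_right _ _) (le_max_right _ _)) hN
    exact le_trans (Nat.le_ceil _) (by exact_mod_cast this)
  obtain ⟨Sn, hSn1, hSn2, hSn3⟩ := H N hN0 M hM t0 t1 ht0 ht1
  refine ⟨Sn, hSn1, hSn2, fun n hn => ?_⟩
  obtain ⟨hn1, hn2⟩ := Finset.mem_Ico.1 (hSn1 hn)
  obtain ⟨m0, d, m1, l, hT, hdn, hδd, hl1, hlD, hl⟩ := hSn3 n hn
  refine ⟨m0, d, m1, l, hT, hdn, hδd, hl1, hlD, ?_⟩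
  have hNr : (0 : ℝ) < N := by
    have : 0 < N := by omega
    exact_mod_cast this
  have hn0 : 0 < n := by omega
  have hnpos : (0 : ℝ) < n := by exact_mod_cast hn0
  have hnΛ : 2 * (R * Λ) ≤ (n : ℝ) := hNΛ.trans (by exact_mod_cast hn1)
  have hMpos : 0 < M := lt_of_lt_of_le (by positivity) hM
  have hMr : (0 : ℝ) < M := by exact_mod_cast hMpos
  have hnM : n ^ 5 ≤ M := le_trans (Nat.pow_le_pow_left hn2.le 5) hM
  have ht1' : (t1 : ℝ) * n ≤ (R * Λ) * M := by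
    have h5 : (t1 : ℝ) ≤ Λ * M / N := by
      rw [ht1]; exact Nat.floor_le (by positivity)
    have h6 : (n : ℝ) ≤ R * N := by exact_mod_cast hn2.le
    calc (t1 : ℝ) * n ≤ (Λ * M / N) * (R * N) := mul_le_mul h5 h6 hnpos.le (by positivity)
      _ = (R * Λ) * M := by field_simp
  have ht12 : 2 * t1 ≤ M := by
    have h5 : (2 * (t1 : ℝ)) * n ≤ M * n := by
      calc (2 * (t1 : ℝ)) * n = 2 * ((t1 : ℝ) * n) := by ring
        _ ≤ 2 * ((R * Λ) * M) := by linarith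
        _ = (2 * (R * Λ)) * M := by ring
        _ ≤ n * M := mul_le_mul_of_nonneg_right hnΛ hMr.le
        _ = M * n := by ring
    have h6 : 2 * (t1 : ℝ) ≤ M := le_of_mul_le_mul_right h5 hnpos
    exact_mod_cast h6
  have hKS : KKS k n M t1 := h4 k n M t1 hn0 hnM (by omega)
  have hStd : Std (R * Λ) k n M t1 := ⟨hn0, hnΛ, hMpos, ht1', hKS⟩
  have hdk : δ1 * (n : ℝ) ^ k ≤ (d : ℝ) ^ k := by
    rw [hδ1, ← mul_pow]
    exact pow_le_pow_left₀ (by positivity) hδd k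
  -- the pointwise inequality
  have hpt : ∀ ω : Om n, (DG k m0 d m1 l ω : ℝ) / (n : ℝ) ^ (l + 1) ≤
      ind (y ^ (D + 1) * (n : ℝ) ^ (l + 1) ≤ (DG k m0 d m1 l ω : ℝ)) +
        y * ((bc k d l ω : ℝ) / (n : ℝ) ^ l) := by
    intro ω
    by_cases hg : y ^ (D + 1) * (n : ℝ) ^ (l + 1) ≤ (DG k m0 d m1 l ω : ℝ)
    · rw [ind_true hg]
      have h5 : (DG k m0 d m1 l ω : ℝ) / (n : ℝ) ^ (l + 1) ≤ 1 := by
        rw [div_le_one (by positivity)]
        exact_mod_cast DG_le k m0 d m1 l ω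
      have h6 : 0 ≤ y * ((bc k d l ω : ℝ) / (n : ℝ) ^ l) := by positivity
      linarith
    · rw [ind_false hg, zero_add]
      push Not at hg
      apply GO.small_case l hl1 y n _ _ hy0.le hnpos (Nat.cast_nonneg _) (Nat.cast_nonneg _)
        (DG_pow_le h2 hk hT hdn hl1 ω)
      refine le_trans hg.le ?_
      apply mul_le_mul_of_nonneg_right _ (by positivity)
      exact pow_le_pow_of_le_one hy0.le hy1 (by omega)
  -- probabilities
  have hp : ∀ t ∈ Ico t0 t1, (0 : ℝ) ≤ (t : ℝ) / M ∧ (t : ℝ) / M ≤ 1 := by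
    intro t ht
    have : t < t1 := (Finset.mem_Ico.1 ht).2
    refine ⟨by positivity, ?_⟩
    rw [div_le_one hMr]
    exact_mod_cast (by omega : t ≤ M)
  have hp' : ∀ t ∈ range t1, (0 : ℝ) ≤ (t : ℝ) / M ∧ (t : ℝ) / M ≤ 1 := by
    intro t ht
    have : t < t1 := Finset.mem_range.1 ht
    refine ⟨by positivity, ?_⟩
    rw [div_le_one hMr]
    exact_mod_cast (by omega : t ≤ M)
  -- the sum of the densities of good tuples
  have hkap : (n : ℝ) ^ 2 * ∑ t ∈ Ico t0 t1, E ((t : ℝ) / M)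
      (fun ω : Om n => (bc k d l ω : ℝ) / (n : ℝ) ^ l) ≤ C / δ1 * M := by
    have h5 : ∑ t ∈ Ico t0 t1, E ((t : ℝ) / M) (fun ω : Om n => (bc k d l ω : ℝ) / (n : ℝ) ^ l) ≤
        ∑ t ∈ range t1, E ((t : ℝ) / M)
          (fun ω : Om n => (bc k d l ω : ℝ) / (n : ℝ) ^ l) := by
      apply Finset.sum_le_sum_of_subset_of_nonneg
      · intro t ht
        exact Finset.mem_range.2 (Finset.mem_Ico.1 ht).2
      · intro t ht _
        exact E_nonneg (hp' t ht).1 (hp' t ht).2 (fun ω => by positivity)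
    have h6 : ∀ ω : Om n, (bc k d l ω : ℝ) / (n : ℝ) ^ l ≤
        (δ1 * (n : ℝ) ^ k * (n : ℝ) ^ l)⁻¹ * ∑ u : Fin l → Fin n, ind (KAliveU k ω) *
          (Kmrg k (Set.univ : Set (KCol k n)) univ (univ.image u) ω : ℝ) := by
      intro ω
      have h7 := bc_le k d l ω
      have h8 : δ1 * (n : ℝ) ^ k * (bc k d l ω : ℝ) ≤ (d : ℝ) ^ k * (bc k d l ω : ℝ) :=
        mul_le_mul_of_nonneg_right hdk (Nat.cast_nonneg _)
      have h9 := h8.trans h7
      rw [← div_eq_inv_mul, div_le_div_iff₀ (by positivity) (by positivity)]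
      calc (bc k d l ω : ℝ) * (δ1 * (n : ℝ) ^ k * (n : ℝ) ^ l)
          = (δ1 * (n : ℝ) ^ k * (bc k d l ω : ℝ)) * (n : ℝ) ^ l := by ring
        _ ≤ _ := mul_le_mul_of_nonneg_right h9 (by positivity)
    have h7 : ∑ t ∈ range t1, E ((t : ℝ) / M)
          (fun ω : Om n => (bc k d l ω : ℝ) / (n : ℝ) ^ l) ≤
        (δ1 * (n : ℝ) ^ k * (n : ℝ) ^ l)⁻¹ * ∑ u : Fin l → Fin n, ∑ t ∈ range t1,
          E ((t : ℝ) / M) (fun ω => ind (KAliveU k ω) *
            (Kmrg k (Set.univ : Set (KCol k n)) univ (univ.image u) ω : ℝ)) := by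
      calc _ ≤ ∑ t ∈ range t1, E ((t : ℝ) / M) (fun ω : Om n =>
            (δ1 * (n : ℝ) ^ k * (n : ℝ) ^ l)⁻¹ * ∑ u : Fin l → Fin n, ind (KAliveU k ω) *
            (Kmrg k (Set.univ : Set (KCol k n)) univ (univ.image u) ω : ℝ)) :=
            Finset.sum_le_sum (fun t ht => E_mono (hp' t ht).1 (hp' t ht).2 h6)
        _ = _ := by
            rw [Finset.sum_comm, Finset.mul_sum]
            refine Finset.sum_congr rfl (fun t _ => ?_)
            rw [E_mul_left, E_sum]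
    have h8 : ∀ u : Fin l → Fin n, ∑ t ∈ range t1,
          E ((t : ℝ) / M) (fun ω => ind (KAliveU k ω) *
            (Kmrg k (Set.univ : Set (KCol k n)) univ (univ.image u) ω : ℝ)) ≤
          C * (n : ℝ) ^ k * M / (n : ℝ) ^ 2 := by
      intro u
      have h9 := hC n M t1 hStd (univ.image u) (by
        have := Finset.card_image_le (s := (univ : Finset (Fin l))) (f := u)
        simp at this
        omega)
      rw [le_div_iff₀ (by positivity)]
      rw [div_mul_eq_mul_div, div_le_iff₀ hMr] at h9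
      linarith
    have h9 : ∑ u : Fin l → Fin n, ∑ t ∈ range t1,
          E ((t : ℝ) / M) (fun ω => ind (KAliveU k ω) *
            (Kmrg k (Set.univ : Set (KCol k n)) univ (univ.image u) ω : ℝ)) ≤
          (n : ℝ) ^ l * (C * (n : ℝ) ^ k * M / (n : ℝ) ^ 2) := by
      calc _ ≤ ∑ _u : Fin l → Fin n, C * (n : ℝ) ^ k * M / (n : ℝ) ^ 2 :=
            Finset.sum_le_sum (fun u _ => h8 u)
        _ = _ := by
            rw [Finset.sum_const, card_univ, Fintype.card_fun, Fintype.card_fin, Fintype.card_fin,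
              nsmul_eq_mul]
            push_cast
            rfl
    calc (n : ℝ) ^ 2 * ∑ t ∈ Ico t0 t1, E ((t : ℝ) / M)
          (fun ω : Om n => (bc k d l ω : ℝ) / (n : ℝ) ^ l)
        ≤ (n : ℝ) ^ 2 * ((δ1 * (n : ℝ) ^ k * (n : ℝ) ^ l)⁻¹ *
            ((n : ℝ) ^ l * (C * (n : ℝ) ^ k * M / (n : ℝ) ^ 2))) := by
          apply mul_le_mul_of_nonneg_left _ (by positivity)
          refine (h5.trans h7).trans ?_
          exact mul_le_mul_of_nonneg_left h9 (by positivity)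
      _ = C / δ1 * M := by field_simp
  -- conclusion
  have hmain : c * M ≤ (n : ℝ) ^ 2 * ∑ t ∈ Ico t0 t1, E ((t : ℝ) / M)
        (fun ω : Om n => ind (y ^ (D + 1) * (n : ℝ) ^ (l + 1) ≤ (DG k m0 d m1 l ω : ℝ))) +
          y * (C / δ1 * M) := by
    calc c * M ≤ _ := hl
      _ ≤ (n : ℝ) ^ 2 * ∑ t ∈ Ico t0 t1, E ((t : ℝ) / M) (fun ω : Om n =>
            ind (y ^ (D + 1) * (n : ℝ) ^ (l + 1) ≤ (DG k m0 d m1 l ω : ℝ)) +
              y * ((bc k d l ω : ℝ) / (n : ℝ) ^ l)) := by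
          apply mul_le_mul_of_nonneg_left _ (by positivity)
          exact Finset.sum_le_sum (fun t ht => E_mono (hp t ht).1 (hp t ht).2 hpt)
      _ = (n : ℝ) ^ 2 * ∑ t ∈ Ico t0 t1, E ((t : ℝ) / M)
            (fun ω : Om n => ind (y ^ (D + 1) * (n : ℝ) ^ (l + 1) ≤ (DG k m0 d m1 l ω : ℝ))) +
          y * ((n : ℝ) ^ 2 * ∑ t ∈ Ico t0 t1, E ((t : ℝ) / M)
            (fun ω : Om n => (bc k d l ω : ℝ) / (n : ℝ) ^ l)) := by
          simp only [E_add, E_mul_left, Finset.sum_add_distrib, ← Finset.mul_sum]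
          ring
      _ ≤ _ := by
          have := mul_le_mul_of_nonneg_left hkap hy0.le
          linarith
  have h9 : y * (C / δ1 * M) ≤ c / 2 * M := by
    calc y * (C / δ1 * M) = (y * (C / δ1)) * M := by ring
      _ ≤ c / 2 * M := mul_le_mul_of_nonneg_right hyC hMr.le
  linarith

end Pool.Agent.H47.UQ
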