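import Pool.Graph.R_seed8.H624U.MA
import Pool.Agent.H47.UQ.Defs

/-!
# Final assembly: positive lower density

After `Pool.Graph.R_seed8.H624U.MA`.
-/

set_option autoImplicit false

namespace Pool.Agent.H47.UQ

open Finset Pool.Agent.H624C Pool.Agent.H624U
open scoped Classical

theorem prob_of_Vst (hconv : T_conv) {k n : ℕ} {γ : ℝ} (hk : 3 ≤ k) (h : Vst k γ n) :
    γ ≤ probNoUC k n := by
  obtain ⟨M, hM, hle⟩ := h
  set B : SimpleGraph (Fin n) → Prop := fun Γ => ¬ Γ.Colorable k ∧ ¬ HasUG k Γ with hB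
  have h1 : (∑ T : Lab n M, ind (∃ t : ℕ, ¬ KAliveU k (op t T) ∧ ¬ HasU k (op t T))) ≤
      ∑ T : Lab n M, ind (∃ t : ℕ, B (SimpleGraph.fromEdgeSet (op t T : Set (Sym2 (Fin n))))) := by
    apply Finset.sum_le_sum
    intro T _
    apply ind_mono
    rintro ⟨t, ha, hu⟩
    obtain ⟨hc1, hc2⟩ := hconv k n (op t T) hk
    exact ⟨t, fun h => ha (hc1 h), fun h => hu (hc2 h)⟩
  have h2 := TR_thm n M hM B
  have hMp : (0 : ℝ) < (M : ℝ) ^ Fintype.card (Sym2 (Fin n)) := by positivity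
  have h3 : γ ≤ (Nat.card {σ : Ord n // ∃ m : ℕ, B (Stage σ m)} : ℝ) / (Nat.card (Ord n) : ℝ) :=
    hle.trans ((div_le_div_of_nonneg_right h1 hMp.le).trans h2)
  refine h3.trans ?_
  unfold probNoUC
  apply div_le_div_of_nonneg_right _ (Nat.cast_nonneg _)
  have h4 : Nat.card {σ : Ord n // ∃ m : ℕ, B (Stage σ m)} ≤
      Nat.card {σ : Ord n // NoUCAtJump k σ} := by
    apply Nat.card_le_card_of_injective
      (fun x : {σ : Ord n // ∃ m : ℕ, B (Stage σ m)} =>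
        (⟨x.1, exists_first x.1 x.2⟩ : {σ : Ord n // NoUCAtJump k σ}))
    intro x y hxy
    simp only [Subtype.mk.injEq] at hxy
    exact Subtype.ext hxy
  exact_mod_cast h4

theorem MA'_thm (hfin : S_fin) (hconv : T_conv) (k : ℕ) (hk : 3 ≤ k) :
    ∃ (R : ℕ) (γ κ : ℝ) (n0 : ℕ), 0 < R ∧ 0 < γ ∧ 0 < κ ∧ ∀ N ≥ n0,
      κ * N ≤ (((Ico N (R * N)).filter (fun n => γ ≤ probNoUC k n)).card : ℝ) := by
  obtain ⟨R, γ, κ, n0, hR, hγ, hκ, h⟩ := hfin k hk
  refine ⟨R, γ, κ, n0, hR, hγ, hκ, fun N hN => ?_⟩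
  obtain ⟨S, hS1, hS2, hS3⟩ := h N hN
  refine hS2.trans ?_
  have : S ⊆ (Ico N (R * N)).filter (fun n => γ ≤ probNoUC k n) := fun n hn =>
    Finset.mem_filter.2 ⟨hS1 hn, prob_of_Vst hconv hk (hS3 n hn)⟩
  exact_mod_cast card_le_card this

/-- from dyadic blocks to lower density -/
theorem density_of_blocks {A : ℕ → Prop} {R : ℕ} {κ : ℝ} {n0 : ℕ} (hR : 0 < R) (hκ : 0 < κ)
    (h : ∀ N ≥ n0, κ * N ≤ (((Ico N (R * N)).filter A).card : ℝ)) :
    ∀ x ≥ R * (n0 + 1), κ / (2 * R) * x ≤ (((range x).filter A).card : ℝ) := by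
  intro x hx
  have hRr : (0 : ℝ) < R := by exact_mod_cast hR
  set N := x / R with hN
  have hN1 : n0 + 1 ≤ N := by
    rw [hN, Nat.le_div_iff_mul_le hR, mul_comm]
    exact hx
  have h1 : R * N ≤ x := Nat.mul_div_le x R
  have h2 : x < R * (N + 1) := Nat.lt_mul_div_succ x hR
  have h3 : (x : ℝ) ≤ R * (2 * N) := by
    have h4 : (x : ℝ) ≤ R * (N + 1) := by exact_mod_cast h2.le
    have h5 : (1 : ℝ) ≤ N := by exact_mod_cast (by omega : 1 ≤ N)
    nlinarith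
  have h6 := h N (by omega)
  have h7 : (Ico N (R * N)).filter A ⊆ (range x).filter A := by
    intro n hn
    rw [Finset.mem_filter, Finset.mem_Ico] at hn
    rw [Finset.mem_filter, Finset.mem_range]
    exact ⟨by omega, hn.2⟩
  have h8 : (((Ico N (R * N)).filter A).card : ℝ) ≤ (((range x).filter A).card : ℝ) := by
    exact_mod_cast card_le_card h7
  calc κ / (2 * R) * x ≤ κ / (2 * R) * (R * (2 * N)) :=
        mul_le_mul_of_nonneg_left h3 (by positivity)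
    _ = κ * N := by field_simp
    _ ≤ _ := h6.trans h8

end Pool.Agent.H47.UQ
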