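import Pool.Graph.R_seed8.H624U.VS
import Pool.Agent.H47.UQ.Defs

/-!
# Visits

After `Pool.Graph.R_seed8.H624U.VS`, with a set of good vertex numbers.
-/

set_option autoImplicit false

namespace Pool.Agent.H47.UQ

open Finset Pool.Agent.H624C Pool.Agent.H624U
open scoped Classical

theorem VS'_thm (hgood : S_good) (hcnt : T_cnt) (hZ3 : T_Z3) (hdur : T_dur) : S_vis := by
  intro k hk
  obtain ⟨R, Λ, ε, c, c', δ, κ, D, n1, hR, hε, hεΛ, hc, hc', hδ, hκ, hg⟩ := hgood k hk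
  have hΛ : 0 < Λ := hε.trans hεΛ
  choose c3 nA hc3 hA using fun l : ℕ => hcnt k l c δ hk hc hδ
  choose c4 nB hc4 hB using fun l : ℕ => hZ3 k l c δ hk hc hδ
  choose C hC hCd using fun l : ℕ => hdur (c4 l) (hc4 l)
  set Sg : ℝ := ∑ l ∈ range (D + 1), C l / c3 l with hSg
  have hterm : ∀ l ≤ D, C l / c3 l ≤ Sg := by
    intro l hl
    exact Finset.single_le_sum (f := fun l => C l / c3 l)
      (fun i _ => (div_pos (hC i) (hc3 i)).le) (Finset.mem_range.2 (by omega))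
  have hSg0 : 0 < Sg := lt_of_lt_of_le (div_pos (hC 0) (hc3 0)) (hterm 0 (Nat.zero_le _))
  set n0 : ℕ := n1 + ∑ l ∈ range (D + 1), nA l + ∑ l ∈ range (D + 1), nB l + ⌈2 * Λ⌉₊ +
    ⌈2 * Sg / c'⌉₊ + 1 with hn0
  refine ⟨R, Λ, ε, c, c' / (2 * Sg), κ, D, n0, hR, hε, hεΛ, hc, by positivity, hκ, ?_⟩
  intro N hN M hM t0 t1 ht0 ht1
  obtain ⟨Sn, hSn1, hSn2, hSn3⟩ := hg N (by omega) M hM t0 t1 ht0 ht1
  refine ⟨Sn, hSn1, hSn2, fun n hn => ?_⟩
  obtain ⟨hnN, hnR⟩ := Finset.mem_Ico.1 (hSn1 hn)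
  obtain ⟨m0, d, m1, l, hThr, hdn, hδd, hl1, hlD, hmass⟩ := hSn3 n hn
  refine ⟨m0, d, m1, l, hl1, hlD, ?_⟩
  have hN1 : 1 ≤ N := by omega
  have hNr : (0:ℝ) < N := by exact_mod_cast hN1
  have hn0' : 0 < n := by omega
  have hnr : (0:ℝ) < n := by exact_mod_cast hn0'
  have hM0 : 0 < M := by
    have : 0 < (R * N) ^ 5 := by positivity
    omega
  have hMr : (0:ℝ) < M := by exact_mod_cast hM0
  have hceil : ∀ x : ℝ, ⌈x⌉₊ ≤ N → x ≤ N := fun x hx =>
    (Nat.le_ceil x).trans (by exact_mod_cast hx)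
  have hNΛ : 2 * Λ ≤ N := hceil _ (by omega)
  have hNS : 2 * Sg / c' ≤ n := by
    refine (hceil _ (by omega)).trans ?_
    exact_mod_cast hnN
  have ht1' : (t1:ℝ) ≤ Λ * M / N := by
    rw [ht1]
    exact Nat.floor_le (by positivity)
  have ht1N : (t1:ℝ) * N ≤ Λ * M := by
    rwa [le_div_iff₀ hNr] at ht1'
  have h2t1 : 2 * t1 ≤ M := by
    have : 2 * (t1:ℝ) ≤ M := by
      by_contra h
      push Not at h
      nlinarith
    exact_mod_cast this
  have hnAl : nA l ≤ n := by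
    have h1 : nA l ≤ ∑ l ∈ range (D + 1), nA l :=
      Finset.single_le_sum (f := nA) (fun i _ => Nat.zero_le _) (Finset.mem_range.2 (by omega))
    omega
  have hnBl : nB l ≤ n := by
    have h1 : nB l ≤ ∑ l ∈ range (D + 1), nB l :=
      Finset.single_le_sum (f := nB) (fun i _ => Nat.zero_le _) (Finset.mem_range.2 (by omega))
    omega
  have hn5 : n ^ 5 ≤ M := le_trans (Nat.pow_le_pow_left (by omega) 5) hM
  have hlow := VS.lower k m0 d m1 l c (c3 l) n M t0 t1 hM0 (by omega)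
    (fun ω hω => hA l n hnAl m0 d m1 ω hThr hdn hδd hω)
  have hup := VS.upper k m0 d m1 l c (C l) n M t0 t1 hn0' (by
    intro w y
    exact hCd l k n M t0 t1 (KRY (Set.univ : Set (KCol k n)) (univ.image w))
      (fun ω => Dat k m0 d m1 l c ω w y) hn0' hn5 h2t1
      (fun ω hω => hB l n hnBl m0 d m1 ω w y hThr hdn hδd hω))
  set W : ℝ := ∑ w : Fin l → Fin n, ∑ y : Slt k l → Fin n, VS.V k m0 d m1 l c n M t0 t1 w y
    with hW
  set S : ℝ := (n : ℝ) ^ (l + Fintype.card (Slt k l)) with hS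
  have hSpos : 0 < S := by positivity
  have hMI : (0:ℝ) < (M : ℝ) ^ nI n := by positivity
  have h1 : c3 l * S * (c' * M) ≤ C l * M * (W / (M : ℝ) ^ nI n + S / n) :=
    (mul_le_mul_of_nonneg_left hmass (mul_nonneg (hc3 l).le hSpos.le)).trans (hlow.trans hup)
  have h2 : c3 l * S * c' ≤ C l * (W / (M : ℝ) ^ nI n + S / n) := by
    have e : (c3 l * S * c') * M ≤ (C l * (W / (M : ℝ) ^ nI n + S / n)) * M := by
      calc (c3 l * S * c') * M = c3 l * S * (c' * M) := by ring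
        _ ≤ C l * M * (W / (M : ℝ) ^ nI n + S / n) := h1
        _ = _ := by ring
    exact le_of_mul_le_mul_right e hMr
  have h3 : S * c' ≤ Sg * (W / (M : ℝ) ^ nI n + S / n) := by
    have hW0 : 0 ≤ W / (M : ℝ) ^ nI n + S / n := by
      have : 0 ≤ W := Finset.sum_nonneg fun w _ => Finset.sum_nonneg fun y _ =>
        Finset.sum_nonneg fun T _ => ind_nonneg _
      positivity
    calc S * c' ≤ C l / c3 l * (W / (M : ℝ) ^ nI n + S / n) := by
          rw [div_mul_eq_mul_div, le_div_iff₀ (hc3 l)]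
          calc S * c' * c3 l = c3 l * S * c' := by ring
            _ ≤ _ := h2
      _ ≤ Sg * (W / (M : ℝ) ^ nI n + S / n) := mul_le_mul_of_nonneg_right (hterm l hlD) hW0
  have h4 : Sg * (S / n) ≤ S * c' / 2 := by
    rw [div_le_iff₀ hc'] at hNS
    rw [← mul_div_assoc, div_le_iff₀ hnr]
    nlinarith
  have h5 : S * c' / 2 ≤ Sg * (W / (M : ℝ) ^ nI n) := by
    have : Sg * (W / (M : ℝ) ^ nI n + S / n) = Sg * (W / (M : ℝ) ^ nI n) + Sg * (S / n) := by
      ring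
    linarith
  have h6 : S * c' / 2 * (M : ℝ) ^ nI n ≤ Sg * W := by
    have e : Sg * (W / (M : ℝ) ^ nI n) * (M : ℝ) ^ nI n = Sg * W := by
      field_simp
    rw [← e]
    exact mul_le_mul_of_nonneg_right h5 hMI.le
  have h7 : c' / (2 * Sg) * S * (M : ℝ) ^ nI n ≤ W := by
    rw [div_mul_eq_mul_div, div_mul_eq_mul_div, div_le_iff₀ (by positivity)]
    linarith
  exact h7

end Pool.Agent.H47.UQ
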